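import Mathlib

/-!
Upper bound: finite sets covered by `k` quasi-orders have dominating sets of size `3 k^2 2^k`.
-/

set_option autoImplicit false

namespace Pool.Agent.H98.Dom

open Finset

/-- a solvability lemma for matrices with nonnegative symmetric part -/
theorem farkas_mono {ι : Type*} [Fintype ι] [Nonempty ι] (a : ι → ι → ℝ)
    (h : ∀ i j, 0 ≤ a i j + a j i) :
    ∃ l : ι → ℝ, (∀ i, 0 ≤ l i) ∧ ∑ i, l i = 1 ∧ ∀ j, 0 ≤ ∑ i, l i * a j i := by
  classical
  by_contra hcon
  push Not at hcon
  let L : (ι → ℝ) →ₗ[ℝ] (ι → ℝ) :=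
    { toFun := fun l j => ∑ i, l i * a j i
      map_add' := by intro l l'; funext j; simp [add_mul, Finset.sum_add_distrib]
      map_smul' := by intro c l; funext j; simp [Finset.mul_sum, mul_assoc] }
  have hLc : Continuous L := LinearMap.continuous_of_finiteDimensional L
  have hQc : IsCompact (L '' stdSimplex ℝ ι) := (isCompact_stdSimplex ℝ ι).image hLc
  have hQv : Convex ℝ (L '' stdSimplex ℝ ι) := (convex_stdSimplex ℝ ι).linear_image L
  have hPv : Convex ℝ {r : ι → ℝ | ∀ j, 0 ≤ r j} := by
    intro x hx y hy s t hs ht _ j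
    have h1 := mul_nonneg hs (hx j)
    have h2 := mul_nonneg ht (hy j)
    change 0 ≤ s * x j + t * y j
    linarith
  have hPc : IsClosed {r : ι → ℝ | ∀ j, 0 ≤ r j} := by
    have : {r : ι → ℝ | ∀ j, 0 ≤ r j} = ⋂ j, {r | 0 ≤ r j} := by ext; simp
    rw [this]
    exact isClosed_iInter fun j => isClosed_le continuous_const (continuous_apply j)
  have hdisj : Disjoint (L '' stdSimplex ℝ ι) {r : ι → ℝ | ∀ j, 0 ≤ r j} := by
    rw [Set.disjoint_left]
    rintro _ ⟨l, hl, rfl⟩ hr
    obtain ⟨j, hj⟩ := hcon l hl.1 hl.2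
    exact absurd (hr j) (not_le.2 hj)
  obtain ⟨f, u, v, h1, h2, h3⟩ := geometric_hahn_banach_compact_closed hQv hQc hPv hPc hdisj
  have hv0 : v < 0 := by
    have := h3 0 (fun j => le_refl _)
    simpa using this
  let m : ι → ℝ := fun j => f (Pi.single j 1)
  have hfr : ∀ r : ι → ℝ, f r = ∑ j, r j * m j := by
    intro r
    conv_lhs => rw [← Finset.univ_sum_single r]
    rw [map_sum]
    apply Finset.sum_congr rfl
    intro j _
    have : (Pi.single j (r j) : ι → ℝ) = r j • Pi.single j (1:ℝ) := by
      rw [← Pi.single_smul]; simp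
    rw [this, map_smul, smul_eq_mul]
  have hm0 : ∀ j, 0 ≤ m j := by
    intro j
    by_contra hj
    push Not at hj
    have h4 : 0 ≤ v / m j := div_nonneg_of_nonpos hv0.le hj.le
    have h5 := h3 ((v / m j) • Pi.single j (1:ℝ)) (by
      intro i
      rw [Pi.smul_apply, smul_eq_mul]
      apply mul_nonneg h4
      by_cases hij : i = j
      · subst hij; simp
      · simp [hij])
    rw [map_smul, smul_eq_mul, div_mul_cancel₀ _ hj.ne] at h5
    exact lt_irrefl _ h5
  have hsum0 : 0 ≤ ∑ j, m j := Finset.sum_nonneg fun j _ => hm0 j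
  rcases hsum0.eq_or_lt with hs | hs
  · have hz : ∀ j, m j = 0 := fun j =>
      (Finset.sum_eq_zero_iff_of_nonneg fun j _ => hm0 j).1 hs.symm j (Finset.mem_univ j)
    obtain ⟨i1⟩ := ‹Nonempty ι›
    have h4 := h1 (L (Pi.single i1 1)) ⟨_, single_mem_stdSimplex ℝ i1, rfl⟩
    rw [hfr] at h4
    simp only [hz, mul_zero, Finset.sum_const_zero] at h4
    linarith
  · obtain ⟨s, hsd⟩ : ∃ s, s = ∑ j, m j := ⟨_, rfl⟩
    rw [← hsd] at hs
    have hmem : (fun i => m i / s) ∈ stdSimplex ℝ ι := by
      refine ⟨fun i => div_nonneg (hm0 i) hs.le, ?_⟩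
      rw [← Finset.sum_div, ← hsd, div_self hs.ne']
    have h4 := h1 _ ⟨_, hmem, rfl⟩
    rw [hfr] at h4
    have e1 : ∑ j, L (fun i => m i / s) j * m j = (∑ j, ∑ i, m i * m j * a j i) / s := by
      rw [Finset.sum_div]
      apply Finset.sum_congr rfl
      intro j _
      change (∑ i, m i / s * a j i) * m j = _
      rw [Finset.sum_mul, Finset.sum_div]
      apply Finset.sum_congr rfl
      intro i _
      ring
    have e2 : 0 ≤ ∑ j, ∑ i, m i * m j * a j i := by
      have e3 : ∑ j, ∑ i, m i * m j * a j i = ∑ j, ∑ i, m i * m j * a i j := by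
        rw [Finset.sum_comm]
        apply Finset.sum_congr rfl
        intro j _
        apply Finset.sum_congr rfl
        intro i _
        ring
      have e4 : 0 ≤ ∑ j, ∑ i, m i * m j * (a j i + a i j) :=
        Finset.sum_nonneg fun j _ => Finset.sum_nonneg fun i _ =>
          mul_nonneg (mul_nonneg (hm0 i) (hm0 j)) (h j i)
      have e5 : ∑ j, ∑ i, m i * m j * (a j i + a i j) =
          (∑ j, ∑ i, m i * m j * a j i) + ∑ j, ∑ i, m i * m j * a i j := by
        rw [← Finset.sum_add_distrib]
        apply Finset.sum_congr rfl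
        intro j _
        rw [← Finset.sum_add_distrib]
        apply Finset.sum_congr rfl
        intro i _
        ring
      rw [e5, ← e3] at e4
      linarith
    rw [e1] at h4
    have := div_nonneg e2 hs.le
    linarith

open Classical in
/-- Fractional domination of a total relation on a nonempty set. -/
theorem exists_weight {V : Type*} [Fintype V] [Nonempty V] (R : V → V → Prop) (X : Set V)
    (hR : ∀ x ∈ X, ∀ y ∈ X, R x y ∨ R y x) :
    ∃ w : V → ℝ, (∀ v, 0 ≤ w v) ∧ ∑ v, w v = 1 ∧
      (X.Nonempty → (∀ v, v ∉ X → w v = 0) ∧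
        ∀ x ∈ X, 1 / 2 ≤ ∑ y ∈ univ.filter (fun y => R y x), w y) := by
  rcases X.eq_empty_or_nonempty with hX | hX
  · obtain ⟨v0⟩ := ‹Nonempty V›
    refine ⟨Pi.single v0 1, ?_, ?_, ?_⟩
    · intro v
      by_cases h : v = v0
      · subst h; simp
      · simp [h]
    · simp
    · intro h
      rw [hX] at h
      exact absurd h Set.not_nonempty_empty
  · have : Nonempty X := hX.to_subtype
    obtain ⟨l, hl0, hl1, hl⟩ := farkas_mono (ι := X)
      (fun a b => (if R (b : V) (a : V) then (1:ℝ) else 0) - 1 / 2) (by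
        intro a b
        have h := hR a a.2 b b.2
        by_cases h1 : R (b : V) (a : V) <;> by_cases h2 : R (a : V) (b : V)
        · simp only [h1, h2, if_true]; norm_num
        · simp only [h1, h2, if_true, if_false]; norm_num
        · simp only [h1, h2, if_true, if_false]; norm_num
        · exact absurd h (by tauto))
    have key : ∀ f : V → ℝ, ∑ v, (if h : v ∈ X then l ⟨v, h⟩ else 0) * f v
        = ∑ x : X, l x * f x := by
      intro f
      have h1 : ∑ v, (if h : v ∈ X then l ⟨v, h⟩ else 0) * f v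
          = ∑ v ∈ univ.filter (fun v => v ∈ X), (if h : v ∈ X then l ⟨v, h⟩ else 0) * f v := by
        rw [Finset.sum_filter]
        apply Finset.sum_congr rfl
        intro v _
        by_cases h : v ∈ X <;> simp [h]
      rw [h1]
      rw [Finset.sum_subtype (univ.filter (fun v => v ∈ X)) (p := fun v => v ∈ X) (by simp)]
      apply Finset.sum_congr rfl
      intro x _
      rw [dif_pos x.2]
    refine ⟨fun v => if h : v ∈ X then l ⟨v, h⟩ else 0, ?_, ?_, ?_⟩
    · intro v
      by_cases h : v ∈ X
      · simp only [h, dif_pos]; exact hl0 _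
      · simp [h]
    · have := key (fun _ => 1)
      simp only [mul_one] at this
      rw [this, hl1]
    · intro _
      refine ⟨fun v hv => by simp [hv], fun x hx => ?_⟩
      have h2 := hl ⟨x, hx⟩
      have h3 := key (fun y => if R y x then 1 else 0)
      rw [Finset.sum_filter]
      have h4 : ∑ y, (if R y x then (if h : y ∈ X then l ⟨y, h⟩ else 0) else 0)
          = ∑ v, (if h : v ∈ X then l ⟨v, h⟩ else 0) * (if R v x then 1 else 0) := by
        apply Finset.sum_congr rfl
        intro y _
        by_cases h : R y x <;> simp [h]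
      rw [h4, h3]
      simp only [mul_sub, Finset.sum_sub_distrib, ← Finset.sum_mul, hl1] at h2
      linarith

open Classical in
/-- Greedy hitting sets. -/
theorem greedy {V J : Type*} [Fintype V] [Fintype J] (w : V → ℝ) (hw : ∀ v, 0 ≤ w v)
    (hw1 : ∑ v, w v = 1) (a : J → ℝ) (ha : ∀ j, 0 ≤ a j) (N : J → Finset V) (δ : ℝ)
    (hN : ∀ j, a j ≠ 0 → δ ≤ ∑ v ∈ N j, w v) (m : ℕ) (hδ1 : δ ≤ 1) :
    ∃ S : Finset V, S.card ≤ m ∧
      ∑ j ∈ univ.filter (fun j => Disjoint (N j) S), a j ≤ (1 - δ) ^ m * ∑ j, a j := by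
  induction m with
  | zero => exact ⟨∅, by simp, by simp⟩
  | succ m ih =>
    obtain ⟨S, hS, hSa⟩ := ih
    -- total missed weight
    set Φ := ∑ j ∈ univ.filter (fun j => Disjoint (N j) S), a j with hΦ
    have hex : ∃ v ∈ univ.filter (fun v => 0 < w v),
        w v * (∑ j ∈ univ.filter (fun j => Disjoint (N j) (insert v S)), a j)
          ≤ w v * ((1 - δ) * Φ) := by
      apply Finset.exists_le_of_sum_le
      · by_contra hne
        rw [Finset.not_nonempty_iff_eq_empty] at hne
        have : ∑ v, w v = 0 := by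
          apply Finset.sum_eq_zero
          intro v _
          by_contra hv
          have : v ∈ univ.filter (fun v => 0 < w v) := by
            simp only [Finset.mem_filter, Finset.mem_univ, true_and]
            exact lt_of_le_of_ne (hw v) (Ne.symm hv)
          rw [hne] at this
          simp at this
        rw [hw1] at this
        norm_num at this
      · have hfil : ∀ g : V → ℝ, ∑ v ∈ univ.filter (fun v => 0 < w v), w v * g v
            = ∑ v, w v * g v := by
          intro g
          rw [Finset.sum_filter]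
          apply Finset.sum_congr rfl
          intro v _
          by_cases hv : 0 < w v
          · simp [hv]
          · have : w v = 0 := le_antisymm (not_lt.1 hv) (hw v)
            simp [this]
        rw [hfil, hfil, ← Finset.sum_mul, hw1, one_mul]
        have hins : ∀ v, ∑ j ∈ univ.filter (fun j => Disjoint (N j) (insert v S)), a j
            = ∑ j ∈ univ.filter (fun j => Disjoint (N j) S), (if v ∈ N j then 0 else a j) := by
          intro v
          rw [Finset.sum_filter, Finset.sum_filter]
          apply Finset.sum_congr rfl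
          intro j _
          by_cases h1 : v ∈ N j <;> by_cases h2 : Disjoint (N j) S <;>
            simp [Finset.disjoint_insert_right, h1, h2]
        simp only [hins]
        simp only [Finset.mul_sum]
        rw [Finset.sum_comm]
        rw [hΦ, Finset.mul_sum]
        apply Finset.sum_le_sum
        intro j _
        have h5 : ∑ v, w v * (if v ∈ N j then 0 else a j)
            = a j * (1 - ∑ v ∈ N j, w v) := by
          have h6 : ∑ v ∈ N j, w v = ∑ v, (if v ∈ N j then w v else 0) := by
            rw [Finset.sum_ite_mem, Finset.univ_inter]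
          rw [h6, ← hw1, ← Finset.sum_sub_distrib, Finset.mul_sum]
          apply Finset.sum_congr rfl
          intro v _
          by_cases h1 : v ∈ N j <;> simp [h1, mul_comm]
        rw [h5]
        by_cases h0 : a j = 0
        · simp [h0]
        · rw [mul_comm (1 - δ)]
          apply mul_le_mul_of_nonneg_left _ (ha j)
          linarith [hN j h0]
    obtain ⟨v, hv, hv2⟩ := hex
    simp only [Finset.mem_filter, Finset.mem_univ, true_and] at hv
    have hv3 := le_of_mul_le_mul_left hv2 hv
    refine ⟨insert v S, (Finset.card_insert_le _ _).trans (by omega), hv3.trans ?_⟩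
    rw [pow_succ', mul_assoc]
    exact mul_le_mul_of_nonneg_left hSa (by linarith)

/-- Recursive choice along a well-founded relation. -/
theorem exists_rec {ι α : Type*} [Preorder ι] [WellFoundedLT ι]
    (P : (C : ι) → ((D : ι) → D < C → α) → α → Prop) (h : ∀ C f, ∃ a, P C f a) :
    ∃ w : ι → α, ∀ C, P C (fun D _ => w D) (w C) := by
  classical
  let F : (C : ι) → ((D : ι) → D < C → α) → α := fun C f => Classical.choose (h C f)
  refine ⟨fun C => (wellFounded_lt (α := ι)).fix F C, fun C => ?_⟩
  have := (wellFounded_lt (α := ι)).fix_eq F C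
  beta_reduce
  rw [this]
  exact Classical.choose_spec (h C _)

/-- Sum of the cardinalities of all subsets. -/
theorem two_mul_sum_card (k : ℕ) :
    2 * ∑ C : Finset (Fin k), C.card = k * 2 ^ k := by
  have h1 : ∑ C : Finset (Fin k), C.card = ∑ C : Finset (Fin k), (Cᶜ).card := by
    apply Fintype.sum_equiv ⟨fun C => Cᶜ, fun C => Cᶜ, fun C => compl_compl C,
      fun C => compl_compl C⟩
    intro C
    simp
  have h2 : ∀ C : Finset (Fin k), C.card + (Cᶜ).card = k := by
    intro C
    rw [Finset.card_add_card_compl, Fintype.card_fin]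
  calc 2 * ∑ C : Finset (Fin k), C.card
      = ∑ C : Finset (Fin k), C.card + ∑ C : Finset (Fin k), (Cᶜ).card := by
        rw [← h1]; ring
    _ = ∑ C : Finset (Fin k), k := by
        rw [← Finset.sum_add_distrib]
        exact Finset.sum_congr rfl fun C _ => h2 C
    _ = k * 2 ^ k := by
        rw [Finset.sum_const, Finset.card_univ, Fintype.card_finset, Fintype.card_fin]
        simp [mul_comm]

theorem numeric (k : ℕ) (hk : 1 ≤ k) :
    (1 - 1 / (2 * (k:ℝ))) ^ (3 * k ^ 2) * ((k:ℝ) * 2 ^ k / 2) < 1 / (2 * (k:ℝ)) := by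
  have hk0 : (0:ℝ) < k := by exact_mod_cast hk
  have h1 : (1 - 1 / (2 * (k:ℝ))) ^ (3 * k ^ 2) ≤ Real.exp (-(3 * k / 2)) := by
    have h2 : 1 - 1 / (2 * (k:ℝ)) ≤ Real.exp (-(1 / (2 * k))) := by
      have := Real.add_one_le_exp (-(1 / (2 * (k:ℝ))))
      linarith
    have h3 : (0:ℝ) ≤ 1 - 1 / (2 * (k:ℝ)) := by
      have : (1:ℝ) ≤ k := by exact_mod_cast hk
      have : 1 / (2 * (k:ℝ)) ≤ 1 := by
        rw [div_le_one (by positivity)]
        linarith
      linarith
    calc (1 - 1 / (2 * (k:ℝ))) ^ (3 * k ^ 2) ≤ (Real.exp (-(1 / (2 * k)))) ^ (3 * k ^ 2) :=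
          pow_le_pow_left₀ h3 h2 _
      _ = Real.exp (-(3 * k / 2)) := by
          rw [← Real.exp_nat_mul]
          congr 1
          push_cast
          field_simp
  have h4 : (k:ℝ) ^ 4 < 5 ^ k := by
    have : ∀ n : ℕ, 1 ≤ n → n ^ 4 < 5 ^ n := by
      intro n hn
      induction n, hn using Nat.le_induction with
      | base => norm_num
      | succ n hn ih =>
        rcases Nat.lt_or_ge n 3 with h | h
        · interval_cases n <;> norm_num
        · have h5 : (n + 1) ^ 4 ≤ 5 * n ^ 4 := by
            have h6 : 3 * (n + 1) ≤ 4 * n := by omega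
            have h7 : (3 * (n + 1)) ^ 4 ≤ (4 * n) ^ 4 := Nat.pow_le_pow_left h6 4
            have h8 : 81 * (n + 1) ^ 4 ≤ 256 * n ^ 4 := by
              calc 81 * (n + 1) ^ 4 = (3 * (n + 1)) ^ 4 := by ring
                _ ≤ (4 * n) ^ 4 := h7
                _ = 256 * n ^ 4 := by ring
            omega
          calc (n + 1) ^ 4 ≤ 5 * n ^ 4 := h5
            _ < 5 * 5 ^ n := by omega
            _ = 5 ^ (n + 1) := by ring
    exact_mod_cast this k hk
  have h5 : (20:ℝ) ≤ Real.exp 3 := by
    have h6 : Real.exp 3 = Real.exp 1 ^ 3 := by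
      rw [← Real.exp_nat_mul]; norm_num
    rw [h6]
    have h7 := Real.exp_one_gt_d9
    have h8 : (2.7182818283:ℝ) ^ 3 ≤ Real.exp 1 ^ 3 := pow_le_pow_left₀ (by norm_num) h7.le 3
    refine le_trans ?_ h8
    norm_num
  have h6 : ((k:ℝ) ^ 2 * 2 ^ k) ^ 2 < (Real.exp (3 * k / 2)) ^ 2 := by
    have h7 : (Real.exp (3 * k / 2)) ^ 2 = Real.exp 3 ^ k := by
      rw [← Real.exp_nat_mul, ← Real.exp_nat_mul]
      congr 1
      push_cast
      ring
    rw [h7]
    calc ((k:ℝ) ^ 2 * 2 ^ k) ^ 2 = (k:ℝ) ^ 4 * 4 ^ k := by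
          have : (4:ℝ) ^ k = (2 ^ k) ^ 2 := by
            rw [← pow_mul, mul_comm, pow_mul]; norm_num
          rw [this]; ring
      _ < 5 ^ k * 4 ^ k := by
          apply mul_lt_mul_of_pos_right h4; positivity
      _ = 20 ^ k := by rw [← mul_pow]; norm_num
      _ ≤ Real.exp 3 ^ k := pow_le_pow_left₀ (by norm_num) h5 k
  have h7 : (k:ℝ) ^ 2 * 2 ^ k < Real.exp (3 * k / 2) :=
    lt_of_pow_lt_pow_left₀ 2 (Real.exp_pos _).le h6
  have h8 : Real.exp (-(3 * k / 2)) * ((k:ℝ) * 2 ^ k / 2) < 1 / (2 * (k:ℝ)) := by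
    rw [Real.exp_neg, lt_div_iff₀ (by positivity), inv_mul_eq_div, div_mul_eq_mul_div,
      div_lt_one (Real.exp_pos _)]
    calc (k:ℝ) * 2 ^ k / 2 * (2 * k) = (k:ℝ) ^ 2 * 2 ^ k := by ring
      _ < _ := h7
  refine lt_of_le_of_lt ?_ h8
  exact mul_le_mul_of_nonneg_right h1 (by positivity)

open Classical in
/-- Main upper bound: if `k ≥ 1` quasi-orders cover all pairs of a finite set, then at most
`3 k^2 2^k` elements dominate all elements. -/
theorem dominating (k : ℕ) (hk : 1 ≤ k) {V : Type*} [Fintype V] (r : Fin k → V → V → Prop)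
    (htrans : ∀ i x y z, r i x y → r i y z → r i x z)
    (htot : ∀ x y, (∃ i, r i x y) ∨ (∃ i, r i y x)) :
    ∃ S : Finset V, S.card ≤ 3 * k ^ 2 * 2 ^ k ∧ ∀ x, ∃ i, ∃ s ∈ S, r i s x := by
  rcases isEmpty_or_nonempty V with hV | hV
  · exact ⟨∅, by simp, fun x => (hV.false x).elim⟩
  have hk0 : (0:ℝ) < k := by exact_mod_cast hk
  obtain ⟨δ, hδ⟩ : ∃ δ : ℝ, δ = 1 / (2 * k) := ⟨_, rfl⟩
  have hδ0 : 0 < δ := by rw [hδ]; positivity
  have hδ1 : δ ≤ 1 := by
    have : (1:ℝ) ≤ k := by exact_mod_cast hk
    rw [hδ, div_le_one (by positivity)]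
    linarith
  -- the weights
  obtain ⟨w, hw⟩ := exists_rec (ι := Finset (Fin k)) (α := V → ℝ)
    (fun C f a => (∀ v, 0 ≤ a v) ∧ ∑ v, a v = 1 ∧
      ({x | ∀ i ∈ C, ∃ D, ∃ h : D < C, i ∉ D ∧
          δ ≤ ∑ y ∈ univ.filter (fun y => r i y x), f D h y}.Nonempty →
        (∀ v, v ∉ {x | ∀ i ∈ C, ∃ D, ∃ h : D < C, i ∉ D ∧
          δ ≤ ∑ y ∈ univ.filter (fun y => r i y x), f D h y} → a v = 0) ∧
        ∀ x ∈ {x | ∀ i ∈ C, ∃ D, ∃ h : D < C, i ∉ D ∧
          δ ≤ ∑ y ∈ univ.filter (fun y => r i y x), f D h y},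
          1 / 2 ≤ ∑ y ∈ univ.filter (fun y => ∃ i, r i y x), a y)) (by
      intro C f
      obtain ⟨a, h0, h1, h2⟩ := exists_weight (fun y x => ∃ i, r i y x)
        {x | ∀ i ∈ C, ∃ D, ∃ h : D < C, i ∉ D ∧
          δ ≤ ∑ y ∈ univ.filter (fun y => r i y x), f D h y} (fun x _ y _ => htot x y)
      refine ⟨a, h0, h1, fun hne => ⟨(h2 hne).1, fun x hx => ?_⟩⟩
      have := (h2 hne).2 x hx
      convert this)
  -- the classes
  let X : Finset (Fin k) → Set V := fun C => {x | ∀ i ∈ C, ∃ D, ∃ _ : D < C, i ∉ D ∧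
          δ ≤ ∑ y ∈ univ.filter (fun y => r i y x), w D y}
  have hw0 : ∀ C v, 0 ≤ w C v := fun C => (hw C).1
  have hw1 : ∀ C, ∑ v, w C v = 1 := fun C => (hw C).2.1
  have hw2 : ∀ C, (X C).Nonempty → (∀ v, v ∉ X C → w C v = 0) ∧
      ∀ x ∈ X C, 1 / 2 ≤ ∑ y ∈ univ.filter (fun y => ∃ i, r i y x), w C y :=
    fun C => (hw C).2.2
  -- every vertex is finished somewhere
  have hfin : ∀ x, ∃ C, x ∈ X C ∧ ∃ i ∈ C, δ ≤ ∑ y ∈ univ.filter (fun y => r i y x), w C y := by
    intro x
    obtain ⟨C, hC, hmax⟩ := (univ.filter (fun C => x ∈ X C)).exists_maximal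
      ⟨∅, by simp [X]⟩
    simp only [Finset.mem_filter, Finset.mem_univ, true_and] at hC
    refine ⟨C, hC, ?_⟩
    have h1 := (hw2 C ⟨x, hC⟩).2 x hC
    have h2 : ∑ y ∈ univ.filter (fun y => ∃ i, r i y x), w C y
        ≤ ∑ i, ∑ y ∈ univ.filter (fun y => r i y x), w C y := by
      simp only [Finset.sum_filter]
      rw [Finset.sum_comm]
      apply Finset.sum_le_sum
      intro y _
      by_cases h : ∃ i, r i y x
      · obtain ⟨i, hi⟩ := h
        rw [if_pos ⟨i, hi⟩]
        have h3 : (if r i y x then w C y else 0) = w C y := if_pos hi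
        refine h3.symm.le.trans ?_
        exact Finset.single_le_sum (f := fun i => if r i y x then w C y else 0)
          (fun j _ => by
            by_cases h4 : r j y x
            · simp only [h4, if_true]; exact hw0 C y
            · simp [h4]) (Finset.mem_univ i)
      · rw [if_neg h]
        exact Finset.sum_nonneg fun j _ => by
          by_cases h4 : r j y x
          · simp only [h4, if_true]; exact hw0 C y
          · simp [h4]
    obtain ⟨i, hi⟩ : ∃ i, δ ≤ ∑ y ∈ univ.filter (fun y => r i y x), w C y := by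
      by_contra hcon
      push Not at hcon
      have : ∑ i : Fin k, ∑ y ∈ univ.filter (fun y => r i y x), w C y < ∑ i : Fin k, δ := by
        apply Finset.sum_lt_sum_of_nonempty
        · exact ⟨⟨0, by omega⟩, Finset.mem_univ _⟩
        · intro i _
          exact hcon i
      rw [Finset.sum_const, Finset.card_univ, Fintype.card_fin, nsmul_eq_mul, hδ] at this
      have h5 : (k:ℝ) * (1 / (2 * k)) = 1 / 2 := by field_simp
      rw [h5] at this
      linarith
    refine ⟨i, ?_, hi⟩
    by_contra hiC
    have h6 : x ∈ X (insert i C) := by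
      intro j hj
      rcases Finset.mem_insert.1 hj with rfl | hj
      · exact ⟨C, Finset.ssubset_insert hiC, hiC, hi⟩
      · obtain ⟨D, hD, hjD, hD2⟩ := hC j hj
        exact ⟨D, lt_of_lt_of_le hD (Finset.subset_insert _ _), hjD, hD2⟩
    have h7 : insert i C ⊆ C := hmax (by
      simp only [Finset.mem_filter, Finset.mem_univ, true_and]
      exact h6) (Finset.subset_insert _ _)
    exact hiC (h7 (Finset.mem_insert_self _ _))
  -- pointers
  have hptr : ∀ C i y, ∃ D : Finset (Fin k), i ∈ C → y ∈ X C →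
      δ ≤ ∑ v ∈ univ.filter (fun v => r i v y), w D v := by
    intro C i y
    by_cases h : i ∈ C ∧ y ∈ X C
    · obtain ⟨D, _, _, hD⟩ := h.2 i h.1
      exact ⟨D, fun _ _ => hD⟩
    · exact ⟨∅, fun h1 h2 => absurd ⟨h1, h2⟩ h⟩
  choose ptr hptr using hptr
  -- targets
  let a : Finset (Fin k) → (Finset (Fin k) × Fin k × V) → ℝ := fun D j =>
    if j.2.1 ∈ j.1 ∧ j.2.2 ∈ X j.1 ∧ ptr j.1 j.2.1 j.2.2 = D then w j.1 j.2.2 else 0
  let N : (Finset (Fin k) × Fin k × V) → Finset V := fun j =>
    univ.filter (fun v => r j.2.1 v j.2.2)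
  have ha0 : ∀ D j, 0 ≤ a D j := by
    intro D j
    simp only [a]
    split_ifs
    · exact hw0 _ _
    · exact le_refl _
  have hS : ∀ D, ∃ S : Finset V, S.card ≤ 3 * k ^ 2 ∧
      ∑ j ∈ univ.filter (fun j => Disjoint (N j) S), a D j
        ≤ (1 - δ) ^ (3 * k ^ 2) * ∑ j, a D j := by
    intro D
    apply greedy (w D) (hw0 D) (hw1 D) (a D) (ha0 D) N δ _ _ hδ1
    intro j hj
    simp only [a] at hj
    split_ifs at hj with h
    · have := hptr j.1 j.2.1 j.2.2 h.1 h.2.1
      rw [h.2.2] at this
      exact this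
    · exact absurd rfl hj
  choose S hScard hSa using hS
  refine ⟨univ.biUnion S, ?_, ?_⟩
  · calc (univ.biUnion S).card ≤ ∑ D, (S D).card := Finset.card_biUnion_le
      _ ≤ ∑ D : Finset (Fin k), 3 * k ^ 2 := Finset.sum_le_sum fun D _ => hScard D
      _ = 3 * k ^ 2 * 2 ^ k := by
        rw [Finset.sum_const, Finset.card_univ, Fintype.card_finset, Fintype.card_fin]
        simp [mul_comm]
  · intro x
    obtain ⟨C, hC, i, hi, hx⟩ := hfin x
    refine ⟨i, ?_⟩
    by_contra hcon
    push Not at hcon
    -- total missed weight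
    have htot2 : ∑ D, ∑ j, a D j ≤ (k:ℝ) * 2 ^ k / 2 := by
      rw [Finset.sum_comm]
      have h1 : ∀ j : Finset (Fin k) × Fin k × V, ∑ D, a D j
          ≤ if j.2.1 ∈ j.1 then w j.1 j.2.2 else 0 := by
        intro j
        by_cases h : j.2.1 ∈ j.1
        · rw [if_pos h]
          have h2 : ∀ D, a D j ≤ if ptr j.1 j.2.1 j.2.2 = D then w j.1 j.2.2 else 0 := by
            intro D
            simp only [a]
            by_cases h3 : ptr j.1 j.2.1 j.2.2 = D
            · rw [if_pos h3]
              split_ifs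
              · exact le_refl _
              · exact hw0 _ _
            · rw [if_neg h3, if_neg (fun h4 => h3 h4.2.2)]
          refine (Finset.sum_le_sum fun D _ => h2 D).trans ?_
          rw [Finset.sum_ite_eq]
          simp
        · rw [if_neg h]
          apply le_of_eq
          apply Finset.sum_eq_zero
          intro D _
          simp only [a]
          rw [if_neg (fun h4 => h h4.1)]
      refine (Finset.sum_le_sum fun j _ => h1 j).trans ?_
      rw [Fintype.sum_prod_type]
      have h2 : ∀ C : Finset (Fin k), ∑ p : Fin k × V, (if p.1 ∈ C then w C p.2 else 0)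
          = (C.card : ℝ) := by
        intro C
        rw [Fintype.sum_prod_type]
        have : ∀ i : Fin k, ∑ v : V, (if i ∈ C then w C v else 0) = if i ∈ C then (1:ℝ) else 0 := by
          intro i
          by_cases h : i ∈ C
          · simp only [h, if_true]; exact hw1 C
          · simp [h]
        rw [Finset.sum_congr rfl fun i _ => this i]
        rw [Finset.sum_ite_mem, Finset.univ_inter]
        simp
      rw [Finset.sum_congr rfl fun C _ => h2 C]
      have h3 := two_mul_sum_card k
      have h4 : (2:ℝ) * ∑ C : Finset (Fin k), (C.card : ℝ) = k * 2 ^ k := by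
        exact_mod_cast h3
      linarith
    have hmiss : ∑ D, ∑ j ∈ univ.filter (fun j => Disjoint (N j) (S D)), a D j < δ := by
      calc ∑ D, ∑ j ∈ univ.filter (fun j => Disjoint (N j) (S D)), a D j
          ≤ ∑ D, (1 - δ) ^ (3 * k ^ 2) * ∑ j, a D j := Finset.sum_le_sum fun D _ => hSa D
        _ = (1 - δ) ^ (3 * k ^ 2) * ∑ D, ∑ j, a D j := by rw [Finset.mul_sum]
        _ ≤ (1 - δ) ^ (3 * k ^ 2) * ((k:ℝ) * 2 ^ k / 2) :=
            mul_le_mul_of_nonneg_left htot2 (pow_nonneg (by linarith) _)
        _ < δ := by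
            rw [hδ]
            exact numeric k hk
    have hge : δ ≤ ∑ D, ∑ j ∈ univ.filter (fun j => Disjoint (N j) (S D)), a D j := by
      refine hx.trans ?_
      rw [Finset.sum_filter]
      have h1 : ∀ y, (if r i y x then w C y else 0)
          ≤ ∑ D, (if Disjoint (N (C, i, y)) (S D) then a D (C, i, y) else 0) := by
        intro y
        have hnn : ∀ D, 0 ≤ (if Disjoint (N (C, i, y)) (S D) then a D (C, i, y) else 0) := by
          intro D
          split_ifs
          · exact ha0 _ _
          · exact le_refl _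
        by_cases h2 : r i y x
        · rw [if_pos h2]
          by_cases h3 : y ∈ X C
          · have h4 : (if Disjoint (N (C, i, y)) (S (ptr C i y)) then
                a (ptr C i y) (C, i, y) else 0) = w C y := by
              rw [if_pos]
              · simp only [a]
                rw [if_pos]
                exact ⟨hi, h3, trivial⟩
              · rw [Finset.disjoint_left]
                intro v hv hvS
                simp only [N, Finset.mem_filter, Finset.mem_univ, true_and] at hv
                exact hcon v (Finset.mem_biUnion.2 ⟨_, Finset.mem_univ _, hvS⟩)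
                  (htrans i v y x hv h2)
            rw [← h4]
            exact Finset.single_le_sum
              (f := fun D => if Disjoint (N (C, i, y)) (S D) then a D (C, i, y) else 0)
              (fun D _ => hnn D) (Finset.mem_univ _)
          · rw [(hw2 C ⟨x, hC⟩).1 y h3]
            exact Finset.sum_nonneg fun D _ => hnn D
        · rw [if_neg h2]
          exact Finset.sum_nonneg fun D _ => hnn D
      refine (Finset.sum_le_sum fun y _ => h1 y).trans ?_
      rw [Finset.sum_comm]
      apply Finset.sum_le_sum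
      intro D _
      rw [Finset.sum_filter]
      have hinj : Function.Injective (fun y : V => ((C, i, y) : Finset (Fin k) × Fin k × V)) := by
        intro y z hyz
        simpa using hyz
      rw [← Finset.sum_image (s := univ) (g := fun y : V => ((C, i, y) : Finset (Fin k) × Fin k × V))
        (f := fun j => if Disjoint (N j) (S D) then a D j else 0) (fun y _ z _ h => hinj h)]
      apply Finset.sum_le_sum_of_subset_of_nonneg (Finset.subset_univ _)
      intro j _ _
      split_ifs
      · exact ha0 _ _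
      · exact le_refl _
    linarith

end Pool.Agent.H98.Dom
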