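import Pool.Agent.H98.Dom.Defs
import Pool.Agent.H98.Dom.Upper

/-!
Basic facts: tournaments from families of disjoint orders, reversal of colours,
`encl ≤ 2^k p`, and the enclosure construction.
-/

set_option autoImplicit false

namespace Pool.Agent.H98.Dom

open Finset

/-- Colour classes as a family of relations. -/
structure Orders (k : ℕ) (V : Type) where
  r : Fin k → V → V → Prop
  irr : ∀ i a, ¬ r i a a
  tr : ∀ i a b c, r i a b → r i b c → r i a c
  tot : ∀ a b, a ≠ b → (∃ i, r i a b) ∨ (∃ i, r i b a)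
  uniq : ∀ i j a b, r i a b → r j a b → i = j
  anti : ∀ i j a b, r i a b → ¬ r j b a

namespace TransTour

variable {k : ℕ} {V : Type}

/-- the colour classes -/
def toOrders (T : TransTour k V) : Orders k V where
  r i a b := T.arc a b ∧ T.col a b = i
  irr i a h := T.irrefl a h.1
  tr i a b c h1 h2 := by
    have h := T.trans a b c h1.1 h2.1 (h1.2.trans h2.2.symm)
    exact ⟨h.1, h.2.trans h1.2⟩
  tot a b h := by
    rcases T.total a b h with h | h
    · exact Or.inl ⟨_, h, rfl⟩
    · exact Or.inr ⟨_, h, rfl⟩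
  uniq i j a b h1 h2 := h1.2.symm.trans h2.2
  anti i j a b h1 h2 := T.asymm a b h1.1 h2.1

end TransTour

namespace Orders

variable {k : ℕ} {V : Type}

open Classical in
/-- the tournament of a family of orders -/
noncomputable def toTour (hk : 0 < k) (O : Orders k V) : TransTour k V where
  arc a b := ∃ i, O.r i a b
  col a b := if h : ∃ i, O.r i a b then Classical.choose h else ⟨0, hk⟩
  irrefl a := fun ⟨i, h⟩ => O.irr i a h
  asymm a b := fun ⟨i, h⟩ ⟨j, h'⟩ => O.anti i j a b h h'
  total a b h := O.tot a b h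
  trans a b c := by
    intro h1 h2 h
    rw [dif_pos h1, dif_pos h2] at h
    have e1 := Classical.choose_spec h1
    have e2 := Classical.choose_spec h2
    rw [← h] at e2
    have e3 := O.tr _ a b c e1 e2
    refine ⟨⟨_, e3⟩, ?_⟩
    rw [dif_pos h1, dif_pos ⟨_, e3⟩]
    exact O.uniq _ _ a c (Classical.choose_spec (⟨_, e3⟩ : ∃ i, O.r i a c)) e3

theorem toTour_spec (hk : 0 < k) (O : Orders k V) (i : Fin k) (a b : V) :
    (O.toTour hk).arc a b ∧ (O.toTour hk).col a b = i ↔ O.r i a b := by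
  constructor
  · rintro ⟨h1, h2⟩
    have e : (O.toTour hk).col a b = Classical.choose h1 := dif_pos h1
    rw [← h2, e]
    exact Classical.choose_spec h1
  · intro h
    have h1 : ∃ i, O.r i a b := ⟨i, h⟩
    refine ⟨h1, ?_⟩
    have e : (O.toTour hk).col a b = Classical.choose h1 := dif_pos h1
    rw [e]
    exact O.uniq _ _ a b (Classical.choose_spec h1) h

/-- domination for a family of orders -/
def Dom (O : Orders k V) (S : Finset V) : Prop := ∀ b, b ∉ S → ∃ a ∈ S, ∃ i, O.r i a b

/-- enclosure for a family of orders -/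
def Enc (O : Orders k V) (S : Finset V) : Prop :=
  ∀ b, b ∉ S → ∃ i, (∃ a ∈ S, O.r i a b) ∧ (∃ c ∈ S, O.r i b c)

theorem dominating_iff (T : TransTour k V) (S : Finset V) :
    T.IsDominating S ↔ T.toOrders.Dom S := by
  constructor
  · intro h b hb
    obtain ⟨a, ha, hab⟩ := h b hb
    exact ⟨a, ha, _, hab, rfl⟩
  · intro h b hb
    obtain ⟨a, ha, i, hab⟩ := h b hb
    exact ⟨a, ha, hab.1⟩

theorem enclosure_iff (T : TransTour k V) (S : Finset V) :
    T.IsEnclosure S ↔ T.toOrders.Enc S := by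
  constructor
  · intro h b hb
    obtain ⟨a, ha, c, hc, hab, hbc, hcol⟩ := h b hb
    exact ⟨T.col a b, ⟨a, ha, hab, rfl⟩, ⟨c, hc, hbc, hcol.symm⟩⟩
  · intro h b hb
    obtain ⟨i, ⟨a, ha, hab⟩, ⟨c, hc, hbc⟩⟩ := h b hb
    exact ⟨a, ha, c, hc, hab.1, hbc.1, hab.2.trans hbc.2.symm⟩

theorem toTour_dominating (hk : 0 < k) (O : Orders k V) (S : Finset V) :
    (O.toTour hk).IsDominating S ↔ O.Dom S := by
  constructor
  · intro h b hb
    obtain ⟨a, ha, i, hab⟩ := h b hb
    exact ⟨a, ha, i, hab⟩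
  · intro h b hb
    obtain ⟨a, ha, i, hab⟩ := h b hb
    exact ⟨a, ha, i, hab⟩

theorem toTour_enclosure (hk : 0 < k) (O : Orders k V) (S : Finset V) :
    (O.toTour hk).IsEnclosure S ↔ O.Enc S := by
  constructor
  · intro h b hb
    obtain ⟨a, ha, c, hc, hab, hbc, hcol⟩ := h b hb
    exact ⟨(O.toTour hk).col a b, ⟨a, ha, (O.toTour_spec hk _ a b).1 ⟨hab, rfl⟩⟩,
      ⟨c, hc, (O.toTour_spec hk _ b c).1 ⟨hbc, hcol.symm⟩⟩⟩
  · intro h b hb
    obtain ⟨i, ⟨a, ha, hab⟩, ⟨c, hc, hbc⟩⟩ := h b hb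
    have h1 := (O.toTour_spec hk i a b).2 hab
    have h2 := (O.toTour_spec hk i b c).2 hbc
    exact ⟨a, ha, c, hc, h1.1, h2.1, h1.2.trans h2.2.symm⟩

/-- transport along an equivalence -/
def map {W : Type} (O : Orders k V) (e : W ≃ V) : Orders k W where
  r i a b := O.r i (e a) (e b)
  irr i a := O.irr i (e a)
  tr i _ _ _ := O.tr i _ _ _
  tot _ _ h := O.tot _ _ (fun h' => h (e.injective h'))
  uniq i j _ _ := O.uniq i j _ _
  anti i j _ _ := O.anti i j _ _

theorem map_dom {W : Type} (O : Orders k V) (e : W ≃ V) (S : Finset W) :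
    (O.map e).Dom S ↔ O.Dom (S.map e.toEmbedding) := by
  constructor
  · intro h b hb
    obtain ⟨a, ha, i, hab⟩ := h (e.symm b) (by
      intro h'
      apply hb
      rw [Finset.mem_map]
      exact ⟨_, h', by simp⟩)
    refine ⟨e a, Finset.mem_map.2 ⟨a, ha, rfl⟩, i, ?_⟩
    simpa [map] using hab
  · intro h b hb
    obtain ⟨a, ha, i, hab⟩ := h (e b) (by
      intro h'
      apply hb
      rw [Finset.mem_map] at h'
      obtain ⟨c, hc, hcb⟩ := h'
      have : c = b := e.injective hcb
      rwa [← this])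
    rw [Finset.mem_map] at ha
    obtain ⟨c, hc, rfl⟩ := ha
    exact ⟨c, hc, i, hab⟩

theorem map_enc {W : Type} (O : Orders k V) (e : W ≃ V) (S : Finset W) :
    (O.map e).Enc S ↔ O.Enc (S.map e.toEmbedding) := by
  constructor
  · intro h b hb
    obtain ⟨i, ⟨a, ha, hab⟩, ⟨c, hc, hbc⟩⟩ := h (e.symm b) (by
      intro h'
      apply hb
      rw [Finset.mem_map]
      exact ⟨_, h', by simp⟩)
    refine ⟨i, ⟨e a, Finset.mem_map.2 ⟨a, ha, rfl⟩, ?_⟩,
      ⟨e c, Finset.mem_map.2 ⟨c, hc, rfl⟩, ?_⟩⟩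
    · simpa [map] using hab
    · simpa [map] using hbc
  · intro h b hb
    obtain ⟨i, ⟨a, ha, hab⟩, ⟨c, hc, hbc⟩⟩ := h (e b) (by
      intro h'
      apply hb
      rw [Finset.mem_map] at h'
      obtain ⟨c, hc, hcb⟩ := h'
      have : c = b := e.injective hcb
      rwa [← this])
    rw [Finset.mem_map] at ha hc
    obtain ⟨a', ha', rfl⟩ := ha
    obtain ⟨c', hc', rfl⟩ := hc
    exact ⟨i, ⟨a', ha', hab⟩, ⟨c', hc', hbc⟩⟩

/-- reverse all arcs whose colour `i` has `σ i = false` -/
def flip (O : Orders k V) (σ : Fin k → Bool) : Orders k V where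
  r i a b := if σ i then O.r i a b else O.r i b a
  irr i a := by
    split_ifs
    · exact O.irr i a
    · exact O.irr i a
  tr i a b c := by
    split_ifs
    · exact O.tr i a b c
    · exact fun h1 h2 => O.tr i c b a h2 h1
  tot a b h := by
    rcases O.tot a b h with ⟨i, hi⟩ | ⟨i, hi⟩
    · by_cases hs : σ i
      · exact Or.inl ⟨i, by simpa [hs] using hi⟩
      · exact Or.inr ⟨i, by simpa [hs] using hi⟩
    · by_cases hs : σ i
      · exact Or.inr ⟨i, by simpa [hs] using hi⟩
      · exact Or.inl ⟨i, by simpa [hs] using hi⟩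
  uniq i j a b := by
    intro h1 h2
    split_ifs at h1 h2
    · exact O.uniq i j a b h1 h2
    · exact absurd h2 (O.anti i j a b h1)
    · exact absurd h1 (O.anti j i a b h2)
    · exact O.uniq i j b a h1 h2
  anti i j a b := by
    intro h1 h2
    split_ifs at h1 h2
    · exact O.anti i j a b h1 h2
    · have := O.uniq i j a b h1 h2
      subst this
      simp_all
    · have := O.uniq i j b a h1 h2
      subst this
      simp_all
    · exact O.anti i j b a h1 h2

theorem flip_flip (O : Orders k V) (σ : Fin k → Bool) (i : Fin k) (a b : V) :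
    ((O.flip σ).flip σ).r i a b ↔ O.r i a b := by
  by_cases h : σ i <;> simp [flip, h]

/-- a set which dominates all flips is an enclosure set -/
theorem enc_of_dom (O : Orders k V) (S : Finset V)
    (h : ∀ σ : Fin k → Bool, ∀ b, b ∉ S → ∃ a ∈ S, ∃ i, (O.flip σ).r i a b) : O.Enc S := by
  classical
  intro b hb
  obtain ⟨a, ha, i, hi⟩ := h (fun i => decide (¬ ∃ a ∈ S, O.r i a b)) b hb
  by_cases h1 : ∃ a ∈ S, O.r i a b
  · refine ⟨i, h1, a, ha, ?_⟩
    have h2 : decide (¬ ∃ a ∈ S, O.r i a b) = false := by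
      rw [decide_eq_false_iff_not, not_not]; exact h1
    have h3 : if decide (¬ ∃ a ∈ S, O.r i a b) = true then O.r i a b else O.r i b a := hi
    rw [h2] at h3
    simpa using h3
  · exfalso
    apply h1
    refine ⟨a, ha, ?_⟩
    have h2 : decide (¬ ∃ a ∈ S, O.r i a b) = true := by
      rw [decide_eq_true_iff]; exact h1
    have h3 : if decide (¬ ∃ a ∈ S, O.r i a b) = true then O.r i a b else O.r i b a := hi
    rw [h2] at h3
    simpa using h3

/-- the product construction: `2^k` flipped copies -/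
noncomputable def power (O : Orders k V) : Orders k ((Fin k → Bool) × V) where
  r i a b := (a.1 = b.1 ∧ (O.flip a.1).r i a.2 b.2) ∨
    (a.1 i = true ∧ b.1 i = false ∧ ∀ j, j < i → a.1 j = b.1 j)
  irr i a := by
    rintro (⟨_, h⟩ | ⟨h1, h2, _⟩)
    · exact (O.flip a.1).irr i a.2 h
    · rw [h1] at h2; exact absurd h2 (by simp)
  tr i a b c := by
    rintro (⟨h1, h2⟩ | ⟨h1, h2, h3⟩) (⟨h4, h5⟩ | ⟨h4, h5, h6⟩)
    · left
      refine ⟨h1.trans h4, ?_⟩
      rw [← h1] at h5
      exact (O.flip a.1).tr i _ _ _ h2 h5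
    · right
      rw [h1]
      exact ⟨h4, h5, h6⟩
    · right
      rw [← h4]
      exact ⟨h1, h2, h3⟩
    · rw [h2] at h4; exact absurd h4 (by simp)
  tot a b h := by
    classical
    by_cases h1 : a.1 = b.1
    · have h2 : a.2 ≠ b.2 := fun h' => h (Prod.ext h1 h')
      rcases (O.flip a.1).tot a.2 b.2 h2 with ⟨i, hi⟩ | ⟨i, hi⟩
      · exact Or.inl ⟨i, Or.inl ⟨h1, hi⟩⟩
      · refine Or.inr ⟨i, Or.inl ⟨h1.symm, ?_⟩⟩
        rw [← h1]
        exact hi
    · have hne : (univ.filter (fun i => a.1 i ≠ b.1 i)).Nonempty := by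
        by_contra hcon
        rw [Finset.not_nonempty_iff_eq_empty] at hcon
        apply h1
        funext i
        by_contra hi
        have : i ∈ univ.filter (fun i => a.1 i ≠ b.1 i) := by simp [hi]
        rw [hcon] at this
        simp at this
      obtain ⟨i, hi, hmin⟩ := Finset.exists_min_image _ (fun i => i) hne
      have hi' : a.1 i ≠ b.1 i := by simpa using hi
      have hlt : ∀ j, j < i → a.1 j = b.1 j := by
        intro j hj
        by_contra hj2
        exact absurd (hmin j (by simpa using hj2)) (not_le.2 hj)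
      rcases Bool.eq_false_or_eq_true (a.1 i) with h3 | h3
      · rcases Bool.eq_false_or_eq_true (b.1 i) with h4 | h4
        · exact absurd (h3.trans h4.symm) hi'
        · exact Or.inl ⟨i, Or.inr ⟨h3, h4, hlt⟩⟩
      · rcases Bool.eq_false_or_eq_true (b.1 i) with h4 | h4
        · exact Or.inr ⟨i, Or.inr ⟨h4, h3, fun j hj => (hlt j hj).symm⟩⟩
        · exact absurd (h3.trans h4.symm) hi'
  uniq i j a b := by
    rintro (⟨h1, h2⟩ | ⟨h1, h2, h3⟩) (⟨h4, h5⟩ | ⟨h4, h5, h6⟩)
    · exact (O.flip a.1).uniq i j _ _ h2 h5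
    · rw [h1, h5] at h4; exact absurd h4 (by simp)
    · rw [h4, h2] at h1; exact absurd h1 (by simp)
    · rcases lt_trichotomy i j with h | h | h
      · have := h6 i h
        rw [h1, h2] at this
        exact absurd this (by simp)
      · exact h
      · have := h3 j h
        rw [h4, h5] at this
        exact absurd this (by simp)
  anti i j a b := by
    rintro (⟨h1, h2⟩ | ⟨h1, h2, h3⟩) (⟨h4, h5⟩ | ⟨h4, h5, h6⟩)
    · rw [← h1] at h5
      exact (O.flip a.1).anti i j _ _ h2 h5
    · rw [h1, h4] at h5; exact absurd h5 (by simp)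
    · rw [h4, h1] at h2; exact absurd h2 (by simp)
    · rcases lt_trichotomy i j with h | h | h
      · have := h6 i h
        rw [h1, h2] at this
        exact absurd this (by simp)
      · subst h
        rw [h1] at h5
        exact absurd h5 (by simp)
      · have := h3 j h
        rw [h4, h5] at this
        exact absurd this (by simp)

theorem power_enc (O : Orders k V) (S : Finset ((Fin k → Bool) × V)) (hS : O.power.Enc S)
    (σ : Fin k → Bool) :
    ∃ S' : Finset V, O.Dom S' ∧ S'.card = (S.filter (fun a => a.1 = σ)).card := by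
  classical
  refine ⟨(S.filter (fun a => a.1 = σ)).image Prod.snd, ?_, ?_⟩
  · intro b hb
    obtain ⟨i, ⟨a, ha, hab⟩, ⟨c, hc, hbc⟩⟩ := hS (σ, b) (by
      intro h
      apply hb
      rw [Finset.mem_image]
      exact ⟨(σ, b), by simp [h], rfl⟩)
    rcases Bool.eq_false_or_eq_true (σ i) with hσ | hσ
    · rcases hab with ⟨h1, h2⟩ | ⟨h1, h2, h3⟩
      · have h1' : a.1 = σ := h1
        refine ⟨a.2, Finset.mem_image.2 ⟨a, by simp [ha, h1'], rfl⟩, i, ?_⟩
        rw [h1'] at h2
        simpa [flip, hσ] using h2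
      · have h2' : σ i = false := h2
        rw [hσ] at h2'
        exact absurd h2' (by simp)
    · rcases hbc with ⟨h1, h2⟩ | ⟨h1, h2, h3⟩
      · have h1' : σ = c.1 := h1
        refine ⟨c.2, Finset.mem_image.2 ⟨c, by simp [hc, h1'], rfl⟩, i, ?_⟩
        have h2' : (O.flip σ).r i b c.2 := h2
        simpa [flip, hσ] using h2'
      · have h1' : σ i = true := h1
        rw [hσ] at h1'
        exact absurd h1' (by simp)
  · apply Finset.card_image_of_injOn
    intro a ha b hb hab
    simp only [Finset.coe_filter, Set.mem_ofPred_eq] at ha hb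
    exact Prod.ext (ha.2.trans hb.2.symm) hab

theorem power_card (O : Orders k V) (d : ℕ) (hd : ∀ S', O.Dom S' → d ≤ S'.card)
    (S : Finset ((Fin k → Bool) × V)) (hS : O.power.Enc S) : 2 ^ k * d ≤ S.card := by
  classical
  have h1 : S.card = ∑ σ : Fin k → Bool, (S.filter (fun a => a.1 = σ)).card :=
    Finset.card_eq_sum_card_fiberwise (fun a _ => Finset.mem_univ _)
  rw [h1]
  calc 2 ^ k * d = ∑ σ : Fin k → Bool, d := by
        rw [Finset.sum_const, Finset.card_univ, Fintype.card_fun, Fintype.card_bool,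
          Fintype.card_fin, smul_eq_mul]
    _ ≤ _ := by
      apply Finset.sum_le_sum
      intro σ _
      obtain ⟨S', hS', hc⟩ := O.power_enc S hS σ
      rw [← hc]
      exact hd S' hS'

/-- the general upper bound for dominating sets -/
theorem exists_dom [Fintype V] (hk : 1 ≤ k) (O : Orders k V) :
    ∃ S : Finset V, S.card ≤ 3 * k ^ 2 * 2 ^ k ∧ O.Dom S := by
  obtain ⟨S, hS, h⟩ := dominating k hk (fun i a b => a = b ∨ O.r i a b) (by
    rintro i x y z (rfl | h1) (rfl | h2)
    · exact Or.inl rfl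
    · exact Or.inr h2
    · exact Or.inr h1
    · exact Or.inr (O.tr i _ _ _ h1 h2)) (by
    intro x y
    by_cases hxy : x = y
    · exact Or.inl ⟨⟨0, hk⟩, Or.inl hxy⟩
    · rcases O.tot x y hxy with ⟨i, hi⟩ | ⟨i, hi⟩
      · exact Or.inl ⟨i, Or.inr hi⟩
      · exact Or.inr ⟨i, Or.inr hi⟩)
  refine ⟨S, hS, fun b hb => ?_⟩
  obtain ⟨i, s, hs, h1⟩ := h b
  rcases h1 with rfl | h1
  · exact absurd hs hb
  · exact ⟨s, hs, i, h1⟩

end Orders

end Pool.Agent.H98.Dom
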