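import Mathlib

/-!
Transitively coloured tournaments, domination number and enclosure number.
-/

set_option autoImplicit false

namespace Pool.Agent.H98.Dom

/-- A tournament with vertex set `V`, given together with a transitive colouring of its arcs
with the colours `0, ..., k - 1`: exactly one of `arc a b`, `arc b a` holds for `a ≠ b`, and
each colour class is a transitive digraph.  (`col a b` is only used when `arc a b` holds.) -/
structure TransTour (k : ℕ) (V : Type) where
  /-- there is an arc from `a` to `b` -/
  arc : V → V → Prop
  /-- the colour of the arc from `a` to `b` -/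
  col : V → V → Fin k
  irrefl : ∀ a, ¬ arc a a
  asymm : ∀ a b, arc a b → ¬ arc b a
  total : ∀ a b, a ≠ b → arc a b ∨ arc b a
  trans : ∀ a b c, arc a b → arc b c → col a b = col b c → arc a c ∧ col a c = col a b

namespace TransTour

variable {k : ℕ} {V : Type}

/-- `S` is dominating: every vertex outside `S` receives an arc from `S`. -/
def IsDominating (T : TransTour k V) (S : Finset V) : Prop :=
  ∀ b, b ∉ S → ∃ a ∈ S, T.arc a b

/-- `S` is an enclosure set: every vertex `b` outside `S` receives an arc from `S` and sends an
arc of the same colour to `S`. -/
def IsEnclosure (T : TransTour k V) (S : Finset V) : Prop :=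
  ∀ b, b ∉ S → ∃ a ∈ S, ∃ c ∈ S, T.arc a b ∧ T.arc b c ∧ T.col a b = T.col b c

/-- The domination number: the least size of a dominating set. -/
noncomputable def dom (T : TransTour k V) : ℕ :=
  sInf {n | ∃ S : Finset V, T.IsDominating S ∧ S.card = n}

/-- The enclosure number: the least size of an enclosure set. -/
noncomputable def encl (T : TransTour k V) : ℕ :=
  sInf {n | ∃ S : Finset V, T.IsEnclosure S ∧ S.card = n}

end TransTour

/-- `p(k)`-candidates: the domination numbers of all finite transitively `k`-coloured
tournaments. -/
def domValues (k : ℕ) : Set ℕ := {n | ∃ N, ∃ T : TransTour k (Fin N), T.dom = n}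

/-- `r(k)`-candidates: the enclosure numbers of all finite transitively `k`-coloured
tournaments. -/
def enclValues (k : ℕ) : Set ℕ := {n | ∃ N, ∃ T : TransTour k (Fin N), T.encl = n}

end Pool.Agent.H98.Dom
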