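import Pool.Agent.H98.Dom.Lower

/-!
Assembly.
-/

set_option autoImplicit false

namespace Pool.Agent.H98.Dom

open Finset

variable {k : ℕ}

theorem dom_spec {V : Type} [Fintype V] (T : TransTour k V) :
    ∃ S : Finset V, T.IsDominating S ∧ S.card = T.dom := by
  have h : {n | ∃ S : Finset V, T.IsDominating S ∧ S.card = n}.Nonempty :=
    ⟨_, univ, fun b hb => absurd (Finset.mem_univ b) hb, rfl⟩
  exact Nat.sInf_mem h

theorem encl_spec {V : Type} [Fintype V] (T : TransTour k V) :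
    ∃ S : Finset V, T.IsEnclosure S ∧ S.card = T.encl := by
  have h : {n | ∃ S : Finset V, T.IsEnclosure S ∧ S.card = n}.Nonempty :=
    ⟨_, univ, fun b hb => absurd (Finset.mem_univ b) hb, rfl⟩
  exact Nat.sInf_mem h

theorem dom_le {V : Type} (T : TransTour k V) (S : Finset V) (h : T.IsDominating S) :
    T.dom ≤ S.card := Nat.sInf_le ⟨S, h, rfl⟩

theorem encl_le {V : Type} (T : TransTour k V) (S : Finset V) (h : T.IsEnclosure S) :
    T.encl ≤ S.card := Nat.sInf_le ⟨S, h, rfl⟩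

theorem le_dom {V : Type} [Fintype V] (T : TransTour k V) (d : ℕ)
    (h : ∀ S, T.IsDominating S → d ≤ S.card) : d ≤ T.dom := by
  obtain ⟨S, hS, hc⟩ := dom_spec T
  rw [← hc]
  exact h S hS

theorem le_encl {V : Type} [Fintype V] (T : TransTour k V) (d : ℕ)
    (h : ∀ S, T.IsEnclosure S → d ≤ S.card) : d ≤ T.encl := by
  obtain ⟨S, hS, hc⟩ := encl_spec T
  rw [← hc]
  exact h S hS

/-- domination number of every finite transitively coloured tournament -/
theorem dom_le_bound (hk : 1 ≤ k) {V : Type} [Fintype V] (T : TransTour k V) :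
    T.dom ≤ 3 * k ^ 2 * 2 ^ k := by
  obtain ⟨S, hS, hd⟩ := Orders.exists_dom hk T.toOrders
  exact (dom_le T S ((Orders.dominating_iff T S).2 hd)).trans hS

theorem exists_fin (hk : 0 < k) {V : Type} [Fintype V] (O : Orders k V) :
    ∃ N, ∃ T : TransTour k (Fin N),
      (∀ S, T.IsDominating S → ∃ S', O.Dom S' ∧ S'.card = S.card) ∧
      (∀ S, T.IsEnclosure S → ∃ S', O.Enc S' ∧ S'.card = S.card) := by
  classical
  let e : Fin (Fintype.card V) ≃ V := (Fintype.equivFin V).symm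
  refine ⟨Fintype.card V, (O.map e).toTour hk, fun S hS => ?_, fun S hS => ?_⟩
  · rw [Orders.toTour_dominating, Orders.map_dom] at hS
    exact ⟨_, hS, by simp⟩
  · rw [Orders.toTour_enclosure, Orders.map_enc] at hS
    exact ⟨_, hS, by simp⟩

theorem bdd_domValues (hk : 1 ≤ k) : BddAbove (domValues k) :=
  ⟨3 * k ^ 2 * 2 ^ k, fun n ⟨_, T, hT⟩ => by rw [← hT]; exact dom_le_bound hk T⟩

/-- a tournament with large domination number -/
theorem exists_large (k : ℕ) : ∃ N, ∃ T : TransTour (k + 1) (Fin N),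
    k.choose (k / 2) ≤ T.dom := by
  have hpos : 0 < k.choose (k / 2) := Nat.choose_pos (Nat.div_le_self _ _)
  obtain ⟨s, hs⟩ : ∃ s, s + 1 = k.choose (k / 2) := ⟨k.choose (k / 2) - 1, by omega⟩
  obtain ⟨N, T, hT, _⟩ := exists_fin (Nat.succ_pos k) (Lower.orders k s)
  refine ⟨N, T, le_dom T _ fun S hS => ?_⟩
  obtain ⟨S', hS', hc⟩ := hT S hS
  rw [← hc, ← hs]
  exact Lower.lower k s hs S' hS'

theorem encl_le_of (hk : 1 ≤ k) (p : ℕ) (hp : ∀ n ∈ domValues k, n ≤ p) {N : ℕ}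
    (T : TransTour k (Fin N)) : T.encl ≤ 2 ^ k * p := by
  classical
  have h1 : ∀ σ : Fin k → Bool, ∃ S : Finset (Fin N), S.card ≤ p ∧
      (T.toOrders.flip σ).Dom S := by
    intro σ
    obtain ⟨S, hS, hc⟩ := dom_spec ((T.toOrders.flip σ).toTour hk)
    refine ⟨S, ?_, (Orders.toTour_dominating hk _ S).1 hS⟩
    rw [hc]
    exact hp _ ⟨N, _, rfl⟩
  choose S hSc hS using h1
  have h2 : T.IsEnclosure (univ.biUnion S) := by
    rw [Orders.enclosure_iff]
    apply Orders.enc_of_dom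
    intro σ b hb
    obtain ⟨a, ha, i, hi⟩ := hS σ b (fun h =>
      hb (Finset.mem_biUnion.2 ⟨σ, Finset.mem_univ _, h⟩))
    exact ⟨a, Finset.mem_biUnion.2 ⟨σ, Finset.mem_univ _, ha⟩, i, hi⟩
  refine (encl_le T _ h2).trans ?_
  calc (univ.biUnion S).card ≤ ∑ σ, (S σ).card := Finset.card_biUnion_le
    _ ≤ ∑ σ : Fin k → Bool, p := Finset.sum_le_sum fun σ _ => hSc σ
    _ = 2 ^ k * p := by
      rw [Finset.sum_const, Finset.card_univ, Fintype.card_fun, Fintype.card_bool,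
        Fintype.card_fin, smul_eq_mul]

theorem central (k : ℕ) : 2 ^ k ≤ (k + 1) * k.choose (k / 2) := by
  rw [← Nat.sum_range_choose]
  calc ∑ m ∈ range (k + 1), k.choose m ≤ ∑ m ∈ range (k + 1), k.choose (k / 2) :=
        Finset.sum_le_sum fun m _ => Nat.choose_le_middle m k
    _ = _ := by rw [Finset.sum_const, Finset.card_range, smul_eq_mul]

theorem main (k : ℕ) (hk : 1 ≤ k) :
    ∃ p r : ℕ, IsGreatest (domValues k) p ∧ IsGreatest (enclValues k) r ∧ r = 2 ^ k * p ∧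
      (k - 1).choose ((k - 1) / 2) ≤ p ∧ p ≤ 3 * k ^ 2 * 2 ^ k ∧
      4 ^ k ≤ 2 * k * r ∧ r ≤ 3 * k ^ 2 * 4 ^ k := by
  obtain ⟨j, rfl⟩ : ∃ j, k = j + 1 := ⟨k - 1, by omega⟩
  obtain ⟨N, T, hT⟩ := exists_large j
  have hne : (domValues (j + 1)).Nonempty := ⟨_, N, T, rfl⟩
  have hbdd := bdd_domValues hk
  have hmem := Nat.sSup_mem hne hbdd
  obtain ⟨p, hp⟩ : ∃ p, p = sSup (domValues (j + 1)) := ⟨_, rfl⟩
  rw [← hp] at hmem
  have hup : ∀ n ∈ domValues (j + 1), n ≤ p := fun n hn => by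
    rw [hp]; exact le_csSup hbdd hn
  have hlow : (j + 1 - 1).choose ((j + 1 - 1) / 2) ≤ p := by
    simp only [Nat.add_sub_cancel]
    exact hT.trans (hup _ ⟨N, T, rfl⟩)
  have hpb : p ≤ 3 * (j + 1) ^ 2 * 2 ^ (j + 1) := by
    obtain ⟨_, T', hT'⟩ := hmem
    rw [← hT']
    exact dom_le_bound hk T'
  have h4 : (4:ℕ) ^ (j + 1) = 2 ^ (j + 1) * 2 ^ (j + 1) := by
    rw [← mul_pow]; norm_num
  refine ⟨p, 2 ^ (j + 1) * p, ⟨hmem, hup⟩, ⟨?_, ?_⟩, rfl, hlow, hpb, ?_, ?_⟩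
  · obtain ⟨M, P, hP⟩ := hmem
    obtain ⟨N', T', _, hT'⟩ := exists_fin (Nat.succ_pos j) P.toOrders.power
    refine ⟨N', T', le_antisymm (encl_le_of hk p hup T') ?_⟩
    apply le_encl
    intro S hS
    obtain ⟨S', hS', hc⟩ := hT' S hS
    rw [← hc]
    apply P.toOrders.power_card p _ S' hS'
    intro S'' hS''
    rw [← hP]
    exact dom_le P S'' ((Orders.dominating_iff P S'').2 hS'')
  · rintro n ⟨N', T', rfl⟩
    exact encl_le_of hk p hup T'
  · have h5 := central j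
    simp only [Nat.add_sub_cancel] at hlow
    have h6 : 2 ^ (j + 1) ≤ 2 * (j + 1) * p := by
      calc 2 ^ (j + 1) = 2 * 2 ^ j := by ring
        _ ≤ 2 * ((j + 1) * j.choose (j / 2)) := by omega
        _ ≤ 2 * ((j + 1) * p) := by
          apply Nat.mul_le_mul_left
          exact Nat.mul_le_mul_left _ hlow
        _ = 2 * (j + 1) * p := by ring
    calc 4 ^ (j + 1) = 2 ^ (j + 1) * 2 ^ (j + 1) := h4
      _ ≤ 2 ^ (j + 1) * (2 * (j + 1) * p) := Nat.mul_le_mul_left _ h6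
      _ = 2 * (j + 1) * (2 ^ (j + 1) * p) := by ring
  · calc 2 ^ (j + 1) * p ≤ 2 ^ (j + 1) * (3 * (j + 1) ^ 2 * 2 ^ (j + 1)) :=
          Nat.mul_le_mul_left _ hpb
      _ = 3 * (j + 1) ^ 2 * (2 ^ (j + 1) * 2 ^ (j + 1)) := by ring
      _ = 3 * (j + 1) ^ 2 * 4 ^ (j + 1) := by rw [h4]

/-- The Erdos-Sands-Sauer-Woodrow bound. -/
theorem monochromatic (k : ℕ) (hk : 1 ≤ k) (V : Type) [Fintype V] (arc : V → V → Prop)
    (col : V → V → Fin k) (htot : ∀ a b, a ≠ b → arc a b ∨ arc b a) :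
    ∃ S : Finset V, S.card ≤ 3 * k ^ 2 * 2 ^ k ∧
      ∀ b, b ∉ S → ∃ a ∈ S, ∃ i, Relation.TransGen (fun x y => arc x y ∧ col x y = i) a b := by
  obtain ⟨S, hS, h⟩ := dominating k hk
    (fun i a b => Relation.ReflTransGen (fun x y => arc x y ∧ col x y = i) a b)
    (fun i x y z h1 h2 => h1.trans h2) (by
      intro x y
      by_cases hxy : x = y
      · exact Or.inl ⟨⟨0, hk⟩, by rw [hxy]⟩
      · rcases htot x y hxy with h | h
        · exact Or.inl ⟨_, Relation.ReflTransGen.single ⟨h, rfl⟩⟩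
        · exact Or.inr ⟨_, Relation.ReflTransGen.single ⟨h, rfl⟩⟩)
  refine ⟨S, hS, fun b hb => ?_⟩
  obtain ⟨i, s, hs, h1⟩ := h b
  refine ⟨s, hs, i, ?_⟩
  rcases (Relation.reflTransGen_iff_eq_or_transGen.1 h1) with h2 | h2
  · rw [h2] at hb
    exact absurd hs hb
  · exact h2

end Pool.Agent.H98.Dom
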