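import Pool.Agent.H98.Dom.Basic

/-!
Lower bound: tournaments with `k + 1` transitive colours and domination number at least the
central binomial coefficient `binom(k, k / 2)`.
-/

set_option autoImplicit false

namespace Pool.Agent.H98.Dom.Lower

open Finset

/-- the classes: subsets of the middle size -/
abbrev Cls (k : ℕ) := {C : Finset (Fin k) // C.card = k / 2}

theorem card_cls (k : ℕ) : Fintype.card (Cls k) = k.choose (k / 2) := by
  rw [Fintype.card_subtype]
  have : (univ.filter fun C : Finset (Fin k) => C.card = k / 2)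
      = powersetCard (k / 2) (univ : Finset (Fin k)) := by
    ext C
    simp [Finset.mem_powersetCard]
  rw [this, Finset.card_powersetCard, Finset.card_univ, Fintype.card_fin]

theorem exists_sep (k : ℕ) (C C' : Cls k) :
    ∃ i : Option (Fin k), C ≠ C' → ∃ j, i = some j ∧ j ∈ C'.1 ∧ j ∉ C.1 := by
  by_cases h : C = C'
  · exact ⟨none, fun h' => absurd h h'⟩
  · have : ¬ C'.1 ⊆ C.1 := by
      intro hsub
      apply h
      apply Subtype.ext
      exact (Finset.eq_of_subset_of_card_le hsub (by rw [C.2, C'.2])).symm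
    rw [Finset.not_subset] at this
    obtain ⟨j, hj, hj'⟩ := this
    exact ⟨some j, fun _ => ⟨j, rfl, hj, hj'⟩⟩

/-- a colour from `C` to `C'` -/
noncomputable def sep (k : ℕ) (C C' : Cls k) : Option (Fin k) :=
  Classical.choose (exists_sep k C C')

theorem sep_spec (k : ℕ) (C C' : Cls k) (h : C ≠ C') :
    ∃ j, sep k C C' = some j ∧ j ∈ C'.1 ∧ j ∉ C.1 :=
  Classical.choose_spec (exists_sep k C C') h

/-- the vertices -/
abbrev Vert (k s : ℕ) :=
  Cls k × ({f : Finset (Cls k × Fin (s ^ 2 + 1)) // f.card ≤ s} × Fin (s ^ 2 + 1))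

/-- enumeration of a finite type -/
noncomputable def num {X : Type} [Fintype X] (x : X) : ℕ := (Fintype.equivFin X x).1

theorem num_inj {X : Type} [Fintype X] {x y : X} (h : num x = num y) : x = y :=
  (Fintype.equivFin X).injective (Fin.ext h)

/-- the adjacency code -/
def beta {k s : ℕ} (a b : Vert k s) : Prop :=
  ¬ ((b.1, b.2.2) ∈ a.2.1.1 ↔ (a.1, a.2.2) ∈ b.2.1.1)

theorem beta_comm {k s : ℕ} (a b : Vert k s) : beta a b ↔ beta b a := by
  unfold beta
  tauto

/-- direction between different classes -/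
def beats {k s : ℕ} (a b : Vert k s) : Prop := (num a.1 < num b.1 ↔ beta a b)

theorem beats_or {k s : ℕ} (a b : Vert k s) (h : a.1 ≠ b.1) : beats a b ∨ beats b a := by
  have h1 : num a.1 ≠ num b.1 := fun h' => h (num_inj h')
  have h2 := beta_comm a b
  unfold beats
  by_cases h5 : beta a b
  · have h6 := h2.1 h5
    simp only [h5, h6, iff_true]
    exact lt_or_gt_of_ne h1
  · have h6 : ¬ beta b a := fun h => h5 (h2.2 h)
    simp only [h5, h6, iff_false, not_lt]
    omega

theorem not_beats {k s : ℕ} (a b : Vert k s) (h : a.1 ≠ b.1) (h1 : beats a b) :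
    ¬ beats b a := by
  have h1' : num a.1 ≠ num b.1 := fun h' => h (num_inj h')
  have h2 := beta_comm a b
  unfold beats at *
  rcases lt_or_gt_of_ne h1' with h3 | h3
  · have h4 : ¬ num b.1 < num a.1 := by omega
    tauto
  · have h4 : ¬ num a.1 < num b.1 := by omega
    tauto

/-- the colouring with `k + 1` colours: colour `0` inside the classes -/
noncomputable def orders (k s : ℕ) : Orders (k + 1) (Vert k s) where
  r i a b := (i = 0 ∧ a.1 = b.1 ∧ num a < num b) ∨
    (a.1 ≠ b.1 ∧ beats a b ∧ ∃ j, sep k a.1 b.1 = some j ∧ i = j.succ)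
  irr i a := by
    rintro (⟨_, _, h⟩ | ⟨h, _⟩)
    · exact lt_irrefl _ h
    · exact h rfl
  tr i a b c := by
    rintro (⟨h1, h2, h3⟩ | ⟨h1, h2, j, h3, h4⟩) (⟨h5, h6, h7⟩ | ⟨h5, h6, l, h7, h8⟩)
    · exact Or.inl ⟨h1, h2.trans h6, h3.trans h7⟩
    · rw [h1] at h8
      exact absurd h8.symm (Fin.succ_ne_zero _)
    · rw [h5] at h4
      exact absurd h4.symm (Fin.succ_ne_zero _)
    · obtain ⟨j', hj1, hj2, hj3⟩ := sep_spec k a.1 b.1 h1
      obtain ⟨l', hl1, hl2, hl3⟩ := sep_spec k b.1 c.1 h5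
      rw [h3] at hj1
      rw [h7] at hl1
      have e1 := Option.some_injective _ hj1
      have e2 := Option.some_injective _ hl1
      have e3 : j = l := Fin.succ_injective _ (h4.symm.trans h8)
      rw [← e2, ← e3, e1] at hl3
      exact absurd hj2 hl3
  tot a b h := by
    by_cases h1 : a.1 = b.1
    · have h2 : num a ≠ num b := fun h' => h (num_inj h')
      rcases lt_or_gt_of_ne h2 with h3 | h3
      · exact Or.inl ⟨0, Or.inl ⟨rfl, h1, h3⟩⟩
      · exact Or.inr ⟨0, Or.inl ⟨rfl, h1.symm, h3⟩⟩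
    · rcases beats_or a b h1 with h2 | h2
      · obtain ⟨j, hj, _⟩ := sep_spec k a.1 b.1 h1
        exact Or.inl ⟨j.succ, Or.inr ⟨h1, h2, j, hj, rfl⟩⟩
      · obtain ⟨j, hj, _⟩ := sep_spec k b.1 a.1 (Ne.symm h1)
        exact Or.inr ⟨j.succ, Or.inr ⟨Ne.symm h1, h2, j, hj, rfl⟩⟩
  uniq i j a b := by
    rintro (⟨h1, h2, h3⟩ | ⟨h1, h2, l, h3, h4⟩) (⟨h5, h6, h7⟩ | ⟨h5, h6, l', h7, h8⟩)
    · rw [h1, h5]
    · exact absurd h2 h5
    · exact absurd h6 h1
    · rw [h3] at h7
      rw [h4, h8, Option.some_injective _ h7]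
  anti i j a b := by
    rintro (⟨h1, h2, h3⟩ | ⟨h1, h2, l, h3, h4⟩) (⟨h5, h6, h7⟩ | ⟨h5, h6, l', h7, h8⟩)
    · exact absurd h3 (not_lt.2 h7.le)
    · exact absurd h2.symm h5
    · exact absurd h6.symm h1
    · exact not_beats a b h1 h2 h6

theorem lower (k : ℕ) (s : ℕ) (hs : s + 1 = k.choose (k / 2)) (S : Finset (Vert k s))
    (hS : (orders k s).Dom S) : s + 1 ≤ S.card := by
  classical
  by_contra hcon
  have hcard : S.card ≤ s := by omega
  -- a class without elements of `S`
  obtain ⟨C, hC⟩ : ∃ C : Cls k, C ∉ S.image Prod.fst := by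
    by_contra h
    push Not at h
    have h1 : (univ : Finset (Cls k)) ⊆ S.image Prod.fst := fun C _ => h C
    have h2 := Finset.card_le_card h1
    rw [Finset.card_univ, card_cls, ← hs] at h2
    have h3 := Finset.card_image_le (s := S) (f := Prod.fst)
    omega
  have hC' : ∀ a ∈ S, a.1 ≠ C := by
    intro a ha h
    exact hC (Finset.mem_image.2 ⟨a, ha, h⟩)
  -- a good name
  obtain ⟨w, hw⟩ : ∃ w : Fin (s ^ 2 + 1), ∀ a ∈ S, (C, w) ∉ a.2.1.1 := by
    by_contra h
    push Not at h
    have h1 : (univ : Finset (Fin (s ^ 2 + 1))) ⊆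
        S.biUnion (fun a => a.2.1.1.image Prod.snd) := by
      intro w _
      obtain ⟨a, ha, haw⟩ := h w
      exact Finset.mem_biUnion.2 ⟨a, ha, Finset.mem_image.2 ⟨(C, w), haw, rfl⟩⟩
    have h2 := Finset.card_le_card h1
    have h3 : (S.biUnion (fun a => a.2.1.1.image Prod.snd)).card ≤ S.card * s :=
      Finset.card_biUnion_le_card_mul _ _ _ (fun a _ =>
        (Finset.card_image_le).trans a.2.1.2)
    rw [Finset.card_univ, Fintype.card_fin] at h2
    have h4 : S.card * s ≤ s * s := Nat.mul_le_mul_right _ hcard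
    have h5 : s ^ 2 = s * s := by ring
    omega
  -- the vertex
  let f : Finset (Cls k × Fin (s ^ 2 + 1)) :=
    (S.filter (fun a => num C < num a.1)).image (fun a => (a.1, a.2.2))
  have hf : f.card ≤ s :=
    (Finset.card_image_le).trans ((Finset.card_filter_le _ _).trans hcard)
  let x : Vert k s := (C, (⟨f, hf⟩, w))
  have hbeat : ∀ a ∈ S, beats x a := by
    intro a ha
    have h1 : ((a.1, a.2.2) ∈ f) ↔ num C < num a.1 := by
      constructor
      · intro h
        obtain ⟨b, hb, hba⟩ := Finset.mem_image.1 h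
        rw [Finset.mem_filter] at hb
        have : b.1 = a.1 := (Prod.mk.inj hba).1
        rw [← this]
        exact hb.2
      · intro h
        exact Finset.mem_image.2 ⟨a, Finset.mem_filter.2 ⟨ha, h⟩, rfl⟩
    have h2 := hw a ha
    change (num C < num a.1 ↔ ¬ ((a.1, a.2.2) ∈ f ↔ (C, w) ∈ a.2.1.1))
    tauto
  have hx : x ∉ S := fun h => hC' x h rfl
  obtain ⟨a, ha, i, hi⟩ := hS x hx
  rcases hi with ⟨_, h2, _⟩ | ⟨h1, h2, _⟩
  · exact hC' a ha h2
  · exact not_beats x a (Ne.symm (hC' a ha)) (hbeat a ha) h2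

end Pool.Agent.H98.Dom.Lower
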